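import Pool.Agent.P8H79.RC.Stm

/-!
# Project RC (helper79), packages KA and KB: algebra of rooted set functions with values in power
series (author helper66)
-/

set_option autoImplicit false

namespace Pool.Agent.P8H66.RC

open Finset
open Pool.Agent.P8H79.RC

variable {V : Type} [DecidableEq V]

/-! ### The additive Moebius transform -/

theorem muf_congr {f g : Finset V → PowerSeries ℚ} {T : Finset V} (h : ∀ U ⊆ T, f U = g U) :
    muf f T = muf g T := by
  unfold muf
  exact sum_congr rfl fun U hU => by rw [h U (mem_powerset.1 hU)]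

theorem muf_insert (f : Finset V → PowerSeries ℚ) {a : V} {T : Finset V} (ha : a ∉ T) :
    muf f (insert a T) = muf (fun U => f (insert a U)) T - muf f T := by
  unfold muf
  rw [sum_powerset_insert ha, add_comm, sub_eq_add_neg, ← sum_neg_distrib]
  congr 1
  · refine sum_congr rfl fun U hU => ?_
    have hU' := mem_powerset.1 hU
    have haU : a ∉ U := fun h => ha (hU' h)
    rw [card_insert_of_notMem ha, card_insert_of_notMem haU, Nat.add_sub_add_right]
  · refine sum_congr rfl fun U hU => ?_
    have hc := card_le_card (mem_powerset.1 hU)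
    rw [card_insert_of_notMem ha, Nat.sub_add_comm hc, pow_succ]
    ring

theorem muf_empty (f : Finset V → PowerSeries ℚ) : muf f ∅ = f ∅ := by
  simp [muf]

/-- inversion -/
theorem sum_muf (T : Finset V) : ∀ f : Finset V → PowerSeries ℚ, ∑ U ∈ T.powerset, muf f U = f T := by
  induction T using Finset.induction_on with
  | empty =>
    intro f
    simp [muf_empty]
  | insert a T ha ih =>
    intro f
    rw [sum_powerset_insert ha]
    have h1 : ∑ U ∈ T.powerset, muf f (insert a U) =
        ∑ U ∈ T.powerset, (muf (fun U => f (insert a U)) U - muf f U) :=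
      sum_congr rfl fun U hU => muf_insert f fun h => ha (mem_powerset.1 hU h)
    rw [h1, sum_sub_distrib, ih, ih]
    ring

theorem muf_unique {f h : Finset V → PowerSeries ℚ} (hh : ∀ T, f T = ∑ U ∈ T.powerset, h U)
    (T : Finset V) : muf f T = h T := by
  induction T using Finset.strongInduction with
  | H T ih =>
    have h1 : ∑ U ∈ T.powerset, (muf f U - h U) = 0 := by
      rw [sum_sub_distrib, sum_muf, ← hh, sub_self]
    rw [sum_eq_single T] at h1
    · exact sub_eq_zero.1 h1
    · intro U hU hne
      rw [ih U (Finset.ssubset_iff_subset_ne.2 ⟨mem_powerset.1 hU, hne⟩), sub_self]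
    · intro hT
      exact absurd (mem_powerset_self T) hT

theorem muf_mul (f g : Finset V → PowerSeries ℚ) (S : Finset V) :
    muf (fun U => f U * g U) S =
      ∑ p ∈ (S.powerset ×ˢ S.powerset).filter (fun p => p.1 ∪ p.2 = S), muf f p.1 * muf g p.2 := by
  refine muf_unique (f := fun U => f U * g U) (h := fun S =>
    ∑ p ∈ (S.powerset ×ˢ S.powerset).filter (fun p => p.1 ∪ p.2 = S), muf f p.1 * muf g p.2)
    (fun T => ?_) S
  have h1 : f T * g T = ∑ p ∈ T.powerset ×ˢ T.powerset, muf f p.1 * muf g p.2 := by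
    rw [sum_product, ← sum_mul_sum, sum_muf, sum_muf]
  rw [h1, ← sum_fiberwise_of_maps_to (s := T.powerset ×ˢ T.powerset) (t := T.powerset)
    (g := fun p => p.1 ∪ p.2)]
  · refine sum_congr rfl fun S hS => ?_
    have hST := mem_powerset.1 hS
    refine sum_congr ?_ fun _ _ => rfl
    ext p
    simp only [mem_filter, mem_product, mem_powerset]
    constructor
    · rintro ⟨_, rfl⟩
      exact ⟨⟨subset_union_left, subset_union_right⟩, rfl⟩
    · rintro ⟨⟨h1, h2⟩, h3⟩
      exact ⟨⟨h1.trans hST, h2.trans hST⟩, h3⟩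
  · intro p hp
    rw [mem_product, mem_powerset, mem_powerset] at hp
    exact mem_powerset.2 (union_subset hp.1 hp.2)

theorem muf_sub (f g : Finset V → PowerSeries ℚ) (T : Finset V) :
    muf (fun U => f U - g U) T = muf f T - muf g T := by
  unfold muf
  rw [← sum_sub_distrib]
  exact sum_congr rfl fun U _ => by ring

theorem muf_add (f g : Finset V → PowerSeries ℚ) (T : Finset V) :
    muf (fun U => f U + g U) T = muf f T + muf g T := by
  unfold muf
  rw [← sum_add_distrib]
  exact sum_congr rfl fun U _ => by ring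

theorem muf_smul (c : PowerSeries ℚ) (f : Finset V → PowerSeries ℚ) (T : Finset V) :
    muf (fun U => c * f U) T = c * muf f T := by
  unfold muf
  rw [mul_sum]
  exact sum_congr rfl fun U _ => by ring

theorem muf_sum {ι : Type*} (s : Finset ι) (f : ι → Finset V → PowerSeries ℚ) (T : Finset V) :
    muf (fun U => ∑ i ∈ s, f i U) T = ∑ i ∈ s, muf (f i) T := by
  unfold muf
  rw [sum_comm]
  exact sum_congr rfl fun U _ => by rw [mul_sum]

theorem muf_off {D : Finset V} {f : Finset V → PowerSeries ℚ} (h : ∀ U, ¬ D ⊆ U → f U = 0)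
    {T : Finset V} (hT : ¬ D ⊆ T) : muf f T = 0 := by
  unfold muf
  refine sum_eq_zero fun U hU => ?_
  rw [h U fun h1 => hT (h1.trans (mem_powerset.1 hU)), mul_zero]

theorem muf_dvd {m : ℕ} {f : Finset V → PowerSeries ℚ} {T : Finset V}
    (h : ∀ U ⊆ T, (PowerSeries.X : PowerSeries ℚ) ^ m ∣ f U) :
    (PowerSeries.X : PowerSeries ℚ) ^ m ∣ muf f T :=
  dvd_sum fun U hU => (h U (mem_powerset.1 hU)).mul_left _

/-! ### Set functions rooted at a set -/

/-- Admissible set functions rooted at `D`, up to the size `n`. -/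
structure AD (n : ℕ) (D : Finset V) (f : Finset V → PowerSeries ℚ) : Prop where
  off : ∀ U, ¬ D ⊆ U → f U = 0
  ord : ∀ T : Finset V, T.card ≤ n →
    (PowerSeries.X : PowerSeries ℚ) ^ (T.card - D.card) ∣ muf f T

variable {n : ℕ} {D D' : Finset V} {f g : Finset V → PowerSeries ℚ}

theorem AD.mul (hf : AD n D f) (hg : AD n D' g) : AD n (D ∪ D') (fun U => f U * g U) := by
  refine ⟨fun U hU => ?_, fun T hT => ?_⟩
  · by_cases h1 : D ⊆ U
    · have h2 : ¬ D' ⊆ U := fun h2 => hU (union_subset h1 h2)
      show f U * g U = 0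
      rw [hg.off U h2, mul_zero]
    · show f U * g U = 0
      rw [hf.off U h1, zero_mul]
  · rw [muf_mul]
    refine dvd_sum fun p hp => ?_
    rw [mem_filter, mem_product, mem_powerset, mem_powerset] at hp
    obtain ⟨⟨h1, h2⟩, h3⟩ := hp
    by_cases h4 : D ⊆ p.1
    · by_cases h5 : D' ⊆ p.2
      · have h6 := hf.ord p.1 ((card_le_card h1).trans hT)
        have h7 := hg.ord p.2 ((card_le_card h2).trans hT)
        have h8 := mul_dvd_mul h6 h7
        rw [← pow_add] at h8
        refine (pow_dvd_pow _ ?_).trans h8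
        have c1 := card_union_add_card_inter p.1 p.2
        have c2 := card_union_add_card_inter D D'
        have c3 := card_le_card (inter_subset_inter h4 h5)
        have c4 := card_le_card h4
        have c5 := card_le_card h5
        rw [h3] at c1
        omega
      · rw [muf_off hg.off h5, mul_zero]
        exact dvd_zero _
    · rw [muf_off hf.off h4, zero_mul]
      exact dvd_zero _

theorem AD.sub (hf : AD n D f) (hg : AD n D g) : AD n D (fun U => f U - g U) := by
  refine ⟨fun U hU => ?_, fun T hT => ?_⟩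
  · show f U - g U = 0
    rw [hf.off U hU, hg.off U hU, sub_zero]
  · rw [muf_sub]
    exact dvd_sub (hf.ord T hT) (hg.ord T hT)

theorem AD.congr (hf : AD n D f) (h : ∀ U, f U = g U) : AD n D g := by
  have : f = g := funext h
  rwa [← this]

/-- the unit -/
noncomputable def one (D : Finset V) (U : Finset V) : PowerSeries ℚ := if D ⊆ U then 1 else 0

theorem AD.one (n : ℕ) (D : Finset V) : AD n D (one D) := by
  refine ⟨fun U hU => if_neg hU, fun T _ => ?_⟩
  rw [muf_unique (h := fun U => if U = D then 1 else 0)]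
  · by_cases h : T = D
    · rw [h, Nat.sub_self, pow_zero]
      exact one_dvd _
    · rw [if_neg h]
      exact dvd_zero _
  · intro T
    rw [sum_ite_eq']
    unfold RC.one
    simp only [mem_powerset]

/-- inverses -/
theorem AD.inv (hf : AD n D f) (h1 : ∀ U, D ⊆ U → PowerSeries.constantCoeff (f U) = 1) :
    AD n D (fun U => if D ⊆ U then (f U)⁻¹ else 0) := by
  set g : Finset V → PowerSeries ℚ := fun U => if D ⊆ U then (f U)⁻¹ else 0 with hg
  -- the approximations
  let p : ℕ → Finset V → PowerSeries ℚ := fun m => Nat.rec (fun _ => 0)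
    (fun _ q U => RC.one D U - (f U - RC.one D U) * q U) m
  have p0 : ∀ U, p 0 U = 0 := fun U => rfl
  have ps : ∀ m U, p (m + 1) U = RC.one D U - (f U - RC.one D U) * p m U := fun m U => rfl
  have hp : ∀ m, AD n D (p m) := by
    intro m
    induction m with
    | zero =>
      refine ⟨fun U _ => rfl, fun T _ => ?_⟩
      have : muf (p 0) T = 0 := by
        unfold muf
        exact sum_eq_zero fun U _ => by rw [p0, mul_zero]
      rw [this]
      exact dvd_zero _
    | succ m ih =>
      have h2 := (hf.sub (AD.one n D)).mul ih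
      rw [union_self] at h2
      exact (AD.one n D).sub h2
  have hX : ∀ U, (PowerSeries.X : PowerSeries ℚ) ∣ f U - RC.one D U := by
    intro U
    rw [PowerSeries.X_dvd_iff, map_sub]
    unfold RC.one
    by_cases h : D ⊆ U
    · rw [h1 U h, if_pos h, map_one, sub_self]
    · rw [hf.off U h, if_neg h, sub_self]
  have hgf : ∀ U, g U = RC.one D U - (f U - RC.one D U) * g U := by
    intro U
    simp only [hg, RC.one]
    by_cases h : D ⊆ U
    · rw [if_pos h, if_pos h]
      have h2 : f U * (f U)⁻¹ = 1 := PowerSeries.mul_inv_cancel _ (by rw [h1 U h]; exact one_ne_zero)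
      linear_combination h2
    · rw [if_neg h, if_neg h]
      ring
  have he : ∀ m U, (PowerSeries.X : PowerSeries ℚ) ^ m ∣ g U - p m U := by
    intro m
    induction m with
    | zero => intro U; rw [pow_zero]; exact one_dvd _
    | succ m ih =>
      intro U
      have e : g U - p (m + 1) U = (f U - RC.one D U) * -(g U - p m U) := by
        rw [ps]
        nth_rewrite 1 [hgf U]
        ring
      rw [e, pow_succ']
      exact mul_dvd_mul (hX U) ((ih U).neg_right)
  refine ⟨fun U hU => if_neg hU, fun T hT => ?_⟩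
  have e : muf g T = muf (p T.card) T + muf (fun U => g U - p T.card U) T := by
    rw [muf_sub]
    ring
  rw [e]
  refine dvd_add ((hp _).ord T hT) ?_
  exact (pow_dvd_pow _ (Nat.sub_le _ _)).trans (muf_dvd fun U _ => he T.card U)

/-! ### Derivatives -/

open scoped PowerSeries.WithPiTopology in
theorem dvd_X_deriv {k : ℕ} {φ : PowerSeries ℚ} (h : (PowerSeries.X : PowerSeries ℚ) ^ k ∣ φ) :
    (PowerSeries.X : PowerSeries ℚ) ^ k ∣ PowerSeries.X * PowerSeries.derivative ℚ φ := by
  rw [PowerSeries.X_pow_dvd_iff] at h ⊢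
  intro j hj
  cases j with
  | zero => simp
  | succ j =>
    rw [PowerSeries.coeff_succ_X_mul, PowerSeries.coeff_derivative, h (j + 1) hj, zero_mul]

theorem dvd_of_deriv {k : ℕ} {φ : PowerSeries ℚ} (h0 : PowerSeries.constantCoeff φ = 1)
    (h : (PowerSeries.X : PowerSeries ℚ) ^ k ∣ PowerSeries.X * PowerSeries.derivative ℚ φ) :
    (PowerSeries.X : PowerSeries ℚ) ^ k ∣ φ - 1 := by
  rw [PowerSeries.X_pow_dvd_iff] at h ⊢
  intro j hj
  cases j with
  | zero =>
    rw [PowerSeries.coeff_zero_eq_constantCoeff, map_sub, h0, map_one, sub_self]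
  | succ j =>
    have h1 := h (j + 1) hj
    rw [PowerSeries.coeff_succ_X_mul, PowerSeries.coeff_derivative] at h1
    have h2 : PowerSeries.coeff (j + 1) φ = 0 := by
      rcases mul_eq_zero.1 h1 with h3 | h3
      · exact h3
      · exfalso
        have : (0 : ℚ) < j + 1 := by positivity
        linarith
    rw [map_sub, h2, PowerSeries.coeff_one, if_neg (Nat.succ_ne_zero j), sub_zero]

theorem AD.deriv (hf : AD n D f) :
    AD n D (fun U => PowerSeries.X * PowerSeries.derivative ℚ (f U)) := by
  refine ⟨fun U hU => ?_, fun T hT => ?_⟩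
  · show PowerSeries.X * PowerSeries.derivative ℚ (f U) = 0
    rw [hf.off U hU, map_zero, mul_zero]
  · have e : muf (fun U => PowerSeries.X * PowerSeries.derivative ℚ (f U)) T =
        PowerSeries.X * PowerSeries.derivative ℚ (muf f T) := by
      unfold muf
      rw [map_sum, mul_sum]
      refine sum_congr rfl fun U _ => ?_
      rcases neg_one_pow_eq_or (PowerSeries ℚ) (T.card - U.card) with h | h
      · rw [h, one_mul, one_mul]
      · rw [h, neg_one_mul, neg_one_mul, map_neg, mul_neg]
    rw [e]
    exact dvd_X_deriv (hf.ord T hT)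

/-- the logarithmic derivative -/
noncomputable def LD (φ : PowerSeries ℚ) : PowerSeries ℚ :=
  PowerSeries.X * PowerSeries.derivative ℚ φ * φ⁻¹

theorem LD_prod {ι : Type*} (s : Finset ι) (F : ι → PowerSeries ℚ)
    (h : ∀ i ∈ s, PowerSeries.constantCoeff (F i) = 1) :
    LD (∏ i ∈ s, F i) = ∑ i ∈ s, LD (F i) ∧ PowerSeries.constantCoeff (∏ i ∈ s, F i) = 1 := by
  classical
  induction s using Finset.induction_on with
  | empty =>
    simp [LD]
  | insert a s ha ih =>
    obtain ⟨h1, h2⟩ := ih fun i hi => h i (mem_insert_of_mem hi)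
    have h3 := h a (mem_insert_self _ _)
    rw [prod_insert ha, sum_insert ha, ← h1]
    refine ⟨?_, by rw [map_mul, h3, h2, one_mul]⟩
    set P := ∏ i ∈ s, F i
    have e1 : F a * (F a)⁻¹ = 1 := PowerSeries.mul_inv_cancel _ (by rw [h3]; exact one_ne_zero)
    have e2 : P * P⁻¹ = 1 := PowerSeries.mul_inv_cancel _ (by rw [h2]; exact one_ne_zero)
    unfold LD
    rw [PowerSeries.mul_inv_rev, Derivation.leibniz, smul_eq_mul, smul_eq_mul]
    linear_combination (PowerSeries.X * PowerSeries.derivative ℚ P * P⁻¹) * e1 +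
      (PowerSeries.X * PowerSeries.derivative ℚ (F a) * (F a)⁻¹) * e2

theorem sub_dvd {k : ℕ} {E O : PowerSeries ℚ} (hE : PowerSeries.constantCoeff E = 1)
    (hO : PowerSeries.constantCoeff O = 1)
    (h : (PowerSeries.X : PowerSeries ℚ) ^ k ∣ LD E - LD O) :
    (PowerSeries.X : PowerSeries ℚ) ^ k ∣ E - O := by
  have e1 : E * E⁻¹ = 1 := PowerSeries.mul_inv_cancel _ (by rw [hE]; exact one_ne_zero)
  have e2 : O * O⁻¹ = 1 := PowerSeries.mul_inv_cancel _ (by rw [hO]; exact one_ne_zero)
  have h3 : PowerSeries.constantCoeff (E * O⁻¹) = 1 := by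
    have := congrArg PowerSeries.constantCoeff e2
    rw [map_mul, hO, one_mul, map_one] at this
    rw [map_mul, hE, this, one_mul]
  have h4 : PowerSeries.X * PowerSeries.derivative ℚ (E * O⁻¹) = E * O⁻¹ * (LD E - LD O) := by
    unfold LD
    rw [Derivation.leibniz, smul_eq_mul, smul_eq_mul, PowerSeries.derivative_inv']
    linear_combination -(PowerSeries.X * PowerSeries.derivative ℚ E * O⁻¹) * e1
  have h5 := dvd_of_deriv h3 (by rw [h4]; exact h.mul_left _)
  have h6 : E - O = (E * O⁻¹ - 1) * O := by
    linear_combination (-E) * e2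
  rw [h6]
  exact h5.mul_right _

/-- the multiplicative Moebius transform -/
theorem AD.mult (hf : AD n D f) (h1 : ∀ U, D ⊆ U → PowerSeries.constantCoeff (f U) = 1)
    {T : Finset V} (hT : T.card ≤ n) :
    (PowerSeries.X : PowerSeries ℚ) ^ (T.card - D.card) ∣
      (∏ U ∈ T.powerset.filter (fun U => D ⊆ U ∧ Even (T.card - U.card)), f U) -
      (∏ U ∈ T.powerset.filter (fun U => D ⊆ U ∧ ¬ Even (T.card - U.card)), f U) := by
  obtain ⟨a1, a2⟩ := LD_prod (T.powerset.filter (fun U => D ⊆ U ∧ Even (T.card - U.card))) f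
    fun U hU => h1 U (mem_filter.1 hU).2.1
  obtain ⟨b1, b2⟩ := LD_prod (T.powerset.filter (fun U => D ⊆ U ∧ ¬ Even (T.card - U.card))) f
    fun U hU => h1 U (mem_filter.1 hU).2.1
  refine sub_dvd a2 b2 ?_
  rw [a1, b1]
  have h2 := (hf.deriv.mul (hf.inv h1)).ord T hT
  rw [union_self] at h2
  have e : muf (fun U => PowerSeries.X * PowerSeries.derivative ℚ (f U) *
      (if D ⊆ U then (f U)⁻¹ else 0)) T =
      ∑ U ∈ T.powerset.filter (fun U => D ⊆ U ∧ Even (T.card - U.card)), LD (f U) -
      ∑ U ∈ T.powerset.filter (fun U => D ⊆ U ∧ ¬ Even (T.card - U.card)), LD (f U) := by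
    rw [sum_filter, sum_filter, ← sum_sub_distrib]
    unfold muf
    refine sum_congr rfl fun U _ => ?_
    show (-1) ^ (T.card - U.card) * (PowerSeries.X * PowerSeries.derivative ℚ (f U) *
      (if D ⊆ U then (f U)⁻¹ else 0)) = _
    by_cases h3 : D ⊆ U
    · by_cases h4 : Even (T.card - U.card)
      · rw [if_pos h3, if_pos ⟨h3, h4⟩, if_neg fun h => h.2 h4, h4.neg_one_pow, one_mul, sub_zero]
        rfl
      · rw [if_pos h3, if_neg fun h => h4 h.2, if_pos ⟨h3, h4⟩,
          (Nat.not_even_iff_odd.1 h4).neg_one_pow, zero_sub, neg_one_mul]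
        rfl
    · rw [if_neg h3, if_neg fun h => h3 h.1, if_neg fun h => h3 h.1, mul_zero, mul_zero, sub_zero]
  rw [e] at h2
  exact h2

/-! ### KA -/

theorem adm_iff {v : V} {f : Finset V → PowerSeries ℚ} : Adm v f ↔ ∀ n, AD n {v} f := by
  constructor
  · intro h n
    refine ⟨fun U hU => h.off U fun h1 => hU (singleton_subset_iff.2 h1), fun T _ => ?_⟩
    rw [card_singleton]
    exact h.ord T
  · intro h
    refine ⟨fun U hU => (h 0).off U fun h1 => hU (singleton_subset_iff.1 h1), fun T => ?_⟩
    have := (h T.card).ord T le_rfl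
    rwa [card_singleton] at this

theorem ka : S_KA := by
  intro V _ _ v
  refine ⟨fun f g hf hg => ?_, fun f hf h1 => ⟨?_, ?_⟩⟩
  · rw [adm_iff] at hf hg ⊢
    intro n
    have := (hf n).mul (hg n)
    rwa [union_self] at this
  · rw [adm_iff] at hf ⊢
    intro n
    have := (hf n).inv fun U hU => h1 U (singleton_subset_iff.1 hU)
    simpa only [singleton_subset_iff] using this
  · intro T hT
    rw [adm_iff] at hf
    have := (hf T.card).mult (fun U hU => h1 U (singleton_subset_iff.1 hU)) (T := T) le_rfl
    simpa only [singleton_subset_iff, card_singleton] using this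

end Pool.Agent.P8H66.RC
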