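import Pool.Agent.P8H66.RC.Ka

/-!
# Project RC (helper79), package KB: the cluster property of the polymer recursion
(author helper66)
-/

set_option autoImplicit false

namespace Pool.Agent.P8H66.RC

open Finset
open Pool.Agent.P8H79.RC

variable {V : Type} [DecidableEq V]

/-- the shift of a set function by a vertex -/
noncomputable def sh (v : V) (f : Finset V → PowerSeries ℚ) (T : Finset V) : PowerSeries ℚ :=
  if v ∈ T then f (T.erase v) else 0

theorem muf_sh (v : V) (f : Finset V → PowerSeries ℚ) (S : Finset V) :
    muf (sh v f) S = if v ∈ S then muf f (S.erase v) else 0 := by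
  by_cases h : v ∈ S
  · rw [if_pos h]
    conv_lhs => rw [← insert_erase h]
    rw [muf_insert _ (notMem_erase v S)]
    have h1 : muf (fun U => sh v f (insert v U)) (S.erase v) = muf f (S.erase v) := by
      refine muf_congr fun U hU => ?_
      have hv : v ∉ U := fun h1 => notMem_erase v S (hU h1)
      unfold sh
      rw [if_pos (mem_insert_self _ _), erase_insert hv]
    have h2 : muf (sh v f) (S.erase v) = 0 := by
      unfold muf
      refine sum_eq_zero fun U hU => ?_
      have hv : v ∉ U := fun h1 => notMem_erase v S (mem_powerset.1 hU h1)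
      unfold sh
      rw [if_neg hv, mul_zero]
    rw [h1, h2, sub_zero]
  · rw [if_neg h]
    unfold muf
    refine sum_eq_zero fun U hU => ?_
    have hv : v ∉ U := fun h1 => h (mem_powerset.1 hU h1)
    unfold sh
    rw [if_neg hv, mul_zero]

theorem AD.sh {n : ℕ} {D : Finset V} {f : Finset V → PowerSeries ℚ} (hf : AD n D f) {v : V}
    (hv : v ∉ D) : AD (n + 1) (insert v D) (sh v f) := by
  refine ⟨fun U hU => ?_, fun T hT => ?_⟩
  · unfold RC.sh
    by_cases h : v ∈ U
    · rw [if_pos h]
      refine hf.off _ fun h1 => hU ?_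
      exact insert_subset_iff.2 ⟨h, h1.trans (erase_subset _ _)⟩
    · rw [if_neg h]
  · rw [muf_sh]
    by_cases h : v ∈ T
    · rw [if_pos h, card_insert_of_notMem hv]
      have h1 := hf.ord (T.erase v) (by rw [card_erase_of_mem h]; omega)
      rw [card_erase_of_mem h] at h1
      refine (pow_dvd_pow _ ?_).trans h1
      omega
    · rw [if_neg h]
      exact dvd_zero _

section poly

variable [Fintype V] {w : Finset V → ℚ} {Z : Finset V → PowerSeries ℚ}

theorem Z_const (h0 : Z ∅ = 1) (h1 : ∀ v, w {v} = 1)
    (hrec : ∀ (T : Finset V) (v : V), v ∈ T →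
      Z T = ∑ U ∈ T.powerset.filter (fun U => v ∈ U),
        PowerSeries.C (w U) * PowerSeries.X ^ (U.card - 1) * Z (T \ U)) (T : Finset V) :
    PowerSeries.constantCoeff (Z T) = 1 := by
  induction T using Finset.strongInduction with
  | H T ih =>
    rcases T.eq_empty_or_nonempty with rfl | ⟨v, hv⟩
    · rw [h0, map_one]
    · rw [hrec T v hv, map_sum, sum_eq_single {v}]
      · rw [map_mul, map_mul, card_singleton, Nat.sub_self, pow_zero, map_one,
          PowerSeries.constantCoeff_C, h1, mul_one, one_mul]
        exact ih _ (sdiff_ssubset (singleton_subset_iff.2 hv) (singleton_nonempty v))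
      · intro U hU hne
        rw [mem_filter, mem_powerset] at hU
        have hc : 0 < U.card - 1 := by
          have h2 : 1 < U.card := by
            rw [one_lt_card]
            by_contra hcon
            push Not at hcon
            refine hne (Finset.ext fun a => ?_)
            rw [mem_singleton]
            exact ⟨fun ha => hcon a ha v hU.2, fun ha => ha ▸ hU.2⟩
          omega
        rw [map_mul, map_mul, map_pow, PowerSeries.constantCoeff_X, zero_pow hc.ne', mul_zero,
          zero_mul]
      · intro h
        exact absurd (mem_filter.2 ⟨mem_powerset.2 (singleton_subset_iff.2 hv),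
          mem_singleton_self v⟩) h

/-- the ratios -/
noncomputable def rr (Z : Finset V → PowerSeries ℚ) (D T : Finset V) : PowerSeries ℚ :=
  if D ⊆ T then Z (T \ D) * (Z T)⁻¹ else 0

/-- the inverse ratios at a vertex -/
noncomputable def RR (Z : Finset V → PowerSeries ℚ) (v : V) (T : Finset V) : PowerSeries ℚ :=
  if v ∈ T then Z T * (Z (T.erase v))⁻¹ else 0

variable (hZ : ∀ T, PowerSeries.constantCoeff (Z T) = 1)

include hZ in
theorem Z_mul_inv (T : Finset V) : Z T * (Z T)⁻¹ = 1 :=
  PowerSeries.mul_inv_cancel _ (by rw [hZ T]; exact one_ne_zero)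

include hZ in
theorem Z_inv_const (T : Finset V) : PowerSeries.constantCoeff (Z T)⁻¹ = 1 := by
  have := congrArg PowerSeries.constantCoeff (Z_mul_inv hZ T)
  rwa [map_mul, hZ T, one_mul, map_one] at this

include hZ in
theorem RR_const (v : V) (T : Finset V) (hv : v ∈ T) :
    PowerSeries.constantCoeff (RR Z v T) = 1 := by
  unfold RR
  rw [if_pos hv, map_mul, hZ, Z_inv_const hZ, one_mul]

theorem RR_eq (hrec : ∀ (T : Finset V) (v : V), v ∈ T →
      Z T = ∑ U ∈ T.powerset.filter (fun U => v ∈ U),
        PowerSeries.C (w U) * PowerSeries.X ^ (U.card - 1) * Z (T \ U)) (v : V) (T : Finset V) :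
    RR Z v T = ∑ U ∈ (univ : Finset (Finset V)).filter (fun U => v ∈ U),
      PowerSeries.C (w U) * PowerSeries.X ^ (U.card - 1) * sh v (rr Z (U.erase v)) T := by
  unfold RR sh
  by_cases hv : v ∈ T
  · simp only [if_pos hv]
    rw [hrec T v hv, sum_mul]
    rw [← sum_subset (s₁ := T.powerset.filter (fun U => v ∈ U))
      (s₂ := (univ : Finset (Finset V)).filter (fun U => v ∈ U))]
    · refine sum_congr rfl fun U hU => ?_
      rw [mem_filter, mem_powerset] at hU
      have h1 : U.erase v ⊆ T.erase v := erase_subset_erase v hU.1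
      unfold rr
      rw [if_pos h1]
      have h2 : T.erase v \ U.erase v = T \ U := by
        ext a
        simp only [mem_sdiff, mem_erase]
        constructor
        · rintro ⟨⟨h3, h4⟩, h5⟩
          exact ⟨h4, fun h6 => h5 ⟨h3, h6⟩⟩
        · rintro ⟨h3, h4⟩
          exact ⟨⟨fun h5 => h4 (h5 ▸ hU.2), h3⟩, fun h5 => h4 h5.2⟩
      rw [h2]
      ring
    · intro U hU
      rw [mem_filter] at hU ⊢
      exact ⟨mem_univ _, hU.2⟩
    · intro U hU hU'
      rw [mem_filter] at hU
      have h1 : ¬ U.erase v ⊆ T.erase v := by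
        intro h2
        refine hU' (mem_filter.2 ⟨mem_powerset.2 fun a ha => ?_, hU.2⟩)
        by_cases h3 : a = v
        · exact h3 ▸ hv
        · exact mem_of_mem_erase (h2 (mem_erase.2 ⟨h3, ha⟩))
      unfold rr
      rw [if_neg h1, mul_zero]
  · simp only [if_neg hv, mul_zero, sum_const_zero]

theorem AD_RR (hrec : ∀ (T : Finset V) (v : V), v ∈ T →
      Z T = ∑ U ∈ T.powerset.filter (fun U => v ∈ U),
        PowerSeries.C (w U) * PowerSeries.X ^ (U.card - 1) * Z (T \ U)) {n : ℕ}
    (ih : ∀ D, AD n D (rr Z D)) (v : V) : AD (n + 1) {v} (RR Z v) := by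
  refine ⟨fun U hU => ?_, fun T hT => ?_⟩
  · unfold RR
    rw [if_neg fun h => hU (singleton_subset_iff.2 h)]
  · have e : muf (RR Z v) T = ∑ U ∈ (univ : Finset (Finset V)).filter (fun U => v ∈ U),
        PowerSeries.C (w U) * PowerSeries.X ^ (U.card - 1) * muf (sh v (rr Z (U.erase v))) T := by
      have : RR Z v = fun T => ∑ U ∈ (univ : Finset (Finset V)).filter (fun U => v ∈ U),
          PowerSeries.C (w U) * PowerSeries.X ^ (U.card - 1) * sh v (rr Z (U.erase v)) T :=
        funext fun T => RR_eq hrec v T
      rw [this, muf_sum]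
      exact sum_congr rfl fun U _ => muf_smul _ _ _
    rw [e]
    refine dvd_sum fun U hU => ?_
    rw [mem_filter] at hU
    have h1 := ((ih (U.erase v)).sh (notMem_erase v U)).ord T hT
    rw [insert_erase hU.2] at h1
    rw [mul_assoc]
    refine Dvd.dvd.mul_left ?_ _
    have h2 := mul_dvd_mul (dvd_refl ((PowerSeries.X : PowerSeries ℚ) ^ (U.card - 1))) h1
    rw [← pow_add] at h2
    refine (pow_dvd_pow _ ?_).trans h2
    have h3 : 0 < U.card := card_pos.2 ⟨v, hU.2⟩
    rw [card_singleton]
    omega

include hZ in
theorem AD_rr (hrec : ∀ (T : Finset V) (v : V), v ∈ T →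
      Z T = ∑ U ∈ T.powerset.filter (fun U => v ∈ U),
        PowerSeries.C (w U) * PowerSeries.X ^ (U.card - 1) * Z (T \ U)) (n : ℕ) :
    ∀ D, AD n D (rr Z D) := by
  induction n with
  | zero =>
    intro D
    refine ⟨fun U hU => if_neg hU, fun T hT => ?_⟩
    have : T.card - D.card = 0 := by omega
    rw [this, pow_zero]
    exact one_dvd _
  | succ n ih =>
    intro D
    rcases D.eq_empty_or_nonempty with rfl | ⟨v, hv⟩
    · refine (AD.one (n + 1) ∅).congr fun U => ?_
      unfold rr one
      rw [if_pos (empty_subset _), if_pos (empty_subset _), sdiff_empty, Z_mul_inv hZ]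
    · have h1 := (AD_RR hrec ih v).inv fun U hU => RR_const hZ v U (singleton_subset_iff.1 hU)
      have h2 := (ih (D.erase v)).sh (notMem_erase v D)
      have h3 := h1.mul h2
      have h4 : {v} ∪ insert v (D.erase v) = D := by
        rw [insert_erase hv]
        exact union_eq_right.2 (singleton_subset_iff.2 hv)
      rw [h4] at h3
      refine h3.congr fun U => ?_
      unfold rr sh
      beta_reduce
      by_cases hvU : v ∈ U
      · rw [if_pos (singleton_subset_iff.2 hvU), if_pos hvU]
        by_cases hDU : D ⊆ U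
        · rw [if_pos (erase_subset_erase v hDU), if_pos hDU]
          have h5 : U.erase v \ D.erase v = U \ D := by
            ext a
            simp only [mem_sdiff, mem_erase]
            constructor
            · rintro ⟨⟨h3, h4⟩, h5⟩
              exact ⟨h4, fun h6 => h5 ⟨h3, h6⟩⟩
            · rintro ⟨h3, h4⟩
              exact ⟨⟨fun h5 => h4 (h5 ▸ hv), h3⟩, fun h5 => h4 h5.2⟩
          have h6 : (RR Z v U)⁻¹ = Z (U.erase v) * (Z U)⁻¹ := by
            have h7 := RR_const hZ v U hvU
            symm
            rw [PowerSeries.eq_inv_iff_mul_eq_one (by rw [h7]; exact one_ne_zero)]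
            unfold RR
            rw [if_pos hvU]
            have e1 := Z_mul_inv hZ U
            have e2 := Z_mul_inv hZ (U.erase v)
            linear_combination (Z (U.erase v) * (Z (U.erase v))⁻¹) * e1 + e2
          rw [h5, h6]
          have e2 := Z_mul_inv hZ (U.erase v)
          linear_combination (Z (U \ D) * (Z U)⁻¹) * e2
        · rw [if_neg hDU, if_neg, mul_zero]
          intro h5
          refine hDU fun a ha => ?_
          by_cases h6 : a = v
          · exact h6 ▸ hvU
          · exact mem_of_mem_erase (h5 (mem_erase.2 ⟨h6, ha⟩))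
      · rw [if_neg hvU, mul_zero, if_neg fun h => hvU (h hv)]

end poly

/-- the products of `Z` over the subsets of even and of odd codimension -/
theorem prod_split (Z : Finset V → PowerSeries ℚ) {T : Finset V} {v : V} (hv : v ∈ T)
    (P : ℕ → Prop) [DecidablePred P] :
    ∏ U ∈ T.powerset.filter (fun U => P (T.card - U.card)), Z U =
      (∏ U ∈ T.powerset.filter (fun U => v ∈ U ∧ P (T.card - U.card)), Z U) *
      ∏ U ∈ T.powerset.filter (fun U => v ∈ U ∧ P (T.card - U.card + 1)), Z (U.erase v) := by
  rw [← prod_filter_mul_prod_filter_not (T.powerset.filter (fun U => P (T.card - U.card)))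
    (fun U => v ∈ U)]
  congr 1
  · rw [filter_filter]
    refine prod_congr ?_ fun _ _ => rfl
    ext U
    simp only [mem_filter]
    tauto
  · refine prod_bij' (fun U _ => insert v U) (fun U _ => U.erase v) ?_ ?_ ?_ ?_ ?_
    · intro U hU
      simp only [mem_filter, mem_powerset] at hU ⊢
      obtain ⟨⟨h1, h2⟩, h3⟩ := hU
      refine ⟨insert_subset hv h1, mem_insert_self _ _, ?_⟩
      have h4 : U.card < T.card := card_lt_card ⟨h1, fun h => h3 (h hv)⟩
      rw [card_insert_of_notMem h3]
      have h5 : T.card - (U.card + 1) + 1 = T.card - U.card := by omega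
      rwa [h5]
    · intro U hU
      simp only [mem_filter, mem_powerset] at hU ⊢
      obtain ⟨h1, h2, h3⟩ := hU
      refine ⟨⟨(erase_subset _ _).trans h1, ?_⟩, notMem_erase _ _⟩
      have h4 : 0 < U.card := card_pos.2 ⟨v, h2⟩
      have h6 := card_le_card h1
      rw [card_erase_of_mem h2]
      have h5 : T.card - (U.card - 1) = T.card - U.card + 1 := by omega
      rwa [h5]
    · intro U hU
      simp only [mem_filter] at hU
      exact erase_insert hU.2
    · intro U hU
      simp only [mem_filter] at hU
      exact insert_erase hU.2.1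
    · intro U hU
      simp only [mem_filter] at hU
      rw [erase_insert hU.2]

theorem kb_direct : S_KB := by
  intro V _ _ w Z h0 h1 hrec T
  rcases T.eq_empty_or_nonempty with rfl | ⟨v, hv⟩
  · simp
  have hZ := Z_const h0 h1 hrec
  have hR := (AD_RR hrec (AD_rr hZ hrec T.card) v).mult
    (fun U hU => RR_const hZ v U (singleton_subset_iff.1 hU)) (T := T) (Nat.le_succ _)
  simp only [singleton_subset_iff, card_singleton] at hR
  have e1 := prod_split Z hv (fun m => Even m)
  have e2 := prod_split Z hv (fun m => ¬ Even m)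
  have key : ∀ P : ℕ → Prop, ∀ [DecidablePred P],
      ∏ U ∈ T.powerset.filter (fun U => v ∈ U ∧ P (T.card - U.card)), Z U =
      (∏ U ∈ T.powerset.filter (fun U => v ∈ U ∧ P (T.card - U.card)), RR Z v U) *
      ∏ U ∈ T.powerset.filter (fun U => v ∈ U ∧ P (T.card - U.card)), Z (U.erase v) := by
    intro P _
    rw [← prod_mul_distrib]
    refine prod_congr rfl fun U hU => ?_
    unfold RR
    rw [if_pos (mem_filter.1 hU).2.1]
    have e2 := Z_mul_inv hZ (U.erase v)
    linear_combination (-Z U) * e2
  have k1 := key (fun m => Even m)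
  have k2 := key (fun m => ¬ Even m)
  rw [e1, e2, k1, k2]
  have s1 : T.powerset.filter (fun U => v ∈ U ∧ Even (T.card - U.card + 1)) =
      T.powerset.filter (fun U => v ∈ U ∧ ¬ Even (T.card - U.card)) := by
    refine filter_congr fun U _ => ?_
    rw [Nat.even_add_one]
  have s2 : T.powerset.filter (fun U => v ∈ U ∧ ¬ Even (T.card - U.card + 1)) =
      T.powerset.filter (fun U => v ∈ U ∧ Even (T.card - U.card)) := by
    refine filter_congr fun U _ => ?_
    rw [Nat.even_add_one, not_not]
  rw [s1, s2]
  set E := ∏ U ∈ T.powerset.filter (fun U => v ∈ U ∧ Even (T.card - U.card)), RR Z v U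
  set O := ∏ U ∈ T.powerset.filter (fun U => v ∈ U ∧ ¬ Even (T.card - U.card)), RR Z v U
  set A := ∏ U ∈ T.powerset.filter (fun U => v ∈ U ∧ Even (T.card - U.card)), Z (U.erase v)
  set B := ∏ U ∈ T.powerset.filter (fun U => v ∈ U ∧ ¬ Even (T.card - U.card)), Z (U.erase v)
  have e3 : E * A * B - O * B * A = (E - O) * (A * B) := by ring
  rw [e3]
  exact hR.mul_right _

theorem kb : S_KA → S_KB := fun _ => kb_direct

end Pool.Agent.P8H66.RC
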